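import Pool.Agent.KS6_18.TwE.Ord

set_option autoImplicit false
set_option linter.unusedSectionVars false

/-! # Euclidean functions on right modules -/

namespace Pool.Agent.KS6_18.TwE

variable {R K H : Type*} [CommRing R] [Field K] [Ring H] [Algebra R K] [Algebra K H] [Algebra R H] [IsScalarTower R K H]
variable [Nontrivial H]

namespace OrthInv

variable (D : OrthInv K H)

lemma dag_mul_tau (x : H) : D.dag x * D.tau x = algebraMap K H (D.nrd x) := by
  unfold dag tau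
  calc (D.u : H) * D.bar x * ↑D.u⁻¹ * (D.u * x * ↑D.u⁻¹) = D.u * D.bar x * (↑D.u⁻¹ * D.u) * x * ↑D.u⁻¹ := by
        noncomm_ring
    _ = D.u * (D.bar x * x) * ↑D.u⁻¹ := by rw [D.uu']; noncomm_ring
    _ = _ := by rw [D.bar_mul_self, ← Algebra.commutes, mul_assoc, D.uu, mul_one]

lemma mul_bar_one {x : H} (h : D.nrd x = 1) : x * D.bar x = 1 := by rw [D.mul_bar, h, map_one]
lemma bar_mul_one {x : H} (h : D.nrd x = 1) : D.bar x * x = 1 := by rw [D.bar_mul_self, h, map_one]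

lemma dag_smulR (r : R) (x : H) : D.dag (r • x) = r • D.dag x := by
  rw [← IsScalarTower.algebraMap_smul K r x, D.dag_smul, IsScalarTower.algebraMap_smul]

variable {W : Type*} [LinearOrder W]

/-- A Euclidean function `Ψ` on the right `O`-module `N ⊆ H`. -/
structure EucN (O : Subalgebra R H) (N : Submodule R H) (Ψ : H → W) : Prop where
  right : ∀ x ∈ N, ∀ y ∈ O, x * y ∈ N
  tau : ∀ x ∈ N, D.tau x ∈ N
  euc : ∀ a ∈ N, ∀ b ∈ N, b ≠ 0 → D.dag (a * D.dag b) = a * D.dag b →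
    ∃ q ∈ O, D.dag q = q ∧ Ψ (a - b * q) < Ψ b
  inv : ∀ x ∈ N, ∀ e ∈ O, D.nrd e = 1 → Ψ (x * e) = Ψ x

/-- the invariant Euclidean function -/
theorem exists_eucN [IsDomain R] [IsFractionRing R K] [WellFoundedLT W] {O : Subalgebra R H}
    (hbar : ∀ x ∈ O, D.bar x ∈ O) (hdag : ∀ x ∈ O, D.dag x ∈ O) {Φ : H → W}
    (hΦ : ∀ a ∈ O, ∀ b ∈ O, b ≠ 0 → D.dag (a * D.dag b) = a * D.dag b → ∃ q ∈ O, D.dag q = q ∧ Φ (a - b * q) < Φ b)
    {N : Submodule R H} (hright : ∀ x ∈ N, ∀ y ∈ O, x * y ∈ N) (htau : ∀ x ∈ N, D.tau x ∈ N) {m : R} (hm : m ≠ 0)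
    (hmN : ∀ x ∈ N, m • x ∈ O) : ∃ Ψ : H → W, D.EucN O N Ψ := by
  have key : ∀ x : H, ∃ w : W, (∃ e ∈ O, D.nrd e = 1 ∧ w = Φ ((m • x) * e)) ∧
      ∀ e ∈ O, D.nrd e = 1 → w ≤ Φ ((m • x) * e) := by
    intro x
    have hne : {w : W | ∃ e ∈ O, D.nrd e = 1 ∧ w = Φ ((m • x) * e)}.Nonempty := ⟨_, 1, one_mem O, D.nrd_one, rfl⟩
    obtain ⟨w, hw, hmin⟩ := WellFounded.has_min (wellFounded_lt (α := W)) _ hne
    exact ⟨w, hw, fun e he he1 => not_lt.1 (hmin _ ⟨e, he, he1, rfl⟩)⟩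
  choose Ψ h1 h2 using key
  have hmK : algebraMap R K m ≠ 0 := by
    rw [Ne, FaithfulSMul.algebraMap_eq_zero_iff]; exact hm
  have hm0 : ∀ x : H, m • x = 0 → x = 0 := by
    intro x hx
    rw [← IsScalarTower.algebraMap_smul K m x] at hx
    exact (smul_eq_zero.1 hx).resolve_left hmK
  refine ⟨Ψ, hright, htau, fun a ha b hb hb0 hab => ?_, fun x hx e he he1 => ?_⟩
  · obtain ⟨e, he, he1, heq⟩ := h1 b
    have t1 : D.dag e * D.tau e = 1 := by rw [D.dag_mul_tau, he1, map_one]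
    have t2 : D.tau e * D.dag e = 1 := by rw [D.tau_mul_dag, he1, map_one]
    have htau' : D.tau e ∈ O := by
      rw [← D.dag_bar]; exact hdag _ (hbar _ he)
    have hb1 : (m • b) * e ≠ 0 := by
      intro h
      have h3 : m • b = 0 := by
        calc m • b = (m • b) * (e * D.bar e) := by rw [D.mul_bar_one he1, mul_one]
          _ = (m • b) * e * D.bar e := by rw [mul_assoc]
          _ = 0 := by rw [h, zero_mul]
      exact hb0 (hm0 b h3)
    have hs : ((m • a) * D.tau e) * D.dag ((m • b) * e) = m • m • (a * D.dag b) := by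
      rw [D.dag_mul, D.dag_smulR]
      calc (m • a) * D.tau e * (D.dag e * m • D.dag b) = (m • a) * (D.tau e * D.dag e) * (m • D.dag b) := by
            noncomm_ring
        _ = _ := by rw [t2, mul_one, smul_mul_smul_comm, ← smul_eq_mul, smul_assoc]
    obtain ⟨q, hq, hq1, hlt⟩ := hΦ ((m • a) * D.tau e) (mul_mem (hmN a ha) htau') ((m • b) * e) (mul_mem (hmN b hb) he) hb1
      (by rw [hs, D.dag_smulR, D.dag_smulR, hab])
    refine ⟨e * q * D.dag e, mul_mem (mul_mem he hq) (hdag e he), ?_, ?_⟩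
    · rw [D.dag_mul, D.dag_mul, D.dag_dag, hq1, mul_assoc]
    · rw [heq]
      refine lt_of_le_of_lt (h2 _ (D.tau e) htau' (by rw [D.nrd_tau, he1])) ?_
      have h4 : (m • (a - b * (e * q * D.dag e))) * D.tau e = (m • a) * D.tau e - (m • b) * e * q := by
        rw [smul_sub, sub_mul]
        congr 1
        calc (m • (b * (e * q * D.dag e))) * D.tau e = (m • b) * e * q * (D.dag e * D.tau e) := by
              rw [← smul_mul_assoc]; noncomm_ring
          _ = _ := by rw [t1, mul_one]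
      rw [h4]
      exact hlt
  · apply le_antisymm
    · obtain ⟨f, hf, hf1, heq⟩ := h1 x
      rw [heq]
      have h5 := h2 (x * e) (D.bar e * f) (mul_mem (hbar e he) hf) (by rw [D.nrd_mul, D.nrd_bar, he1, hf1, one_mul])
      have h6 : (m • (x * e)) * (D.bar e * f) = (m • x) * f := by
        rw [← smul_mul_assoc]
        calc (m • x) * e * (D.bar e * f) = (m • x) * (e * D.bar e) * f := by noncomm_ring
          _ = _ := by rw [D.mul_bar_one he1, mul_one]
      rwa [h6] at h5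
    · obtain ⟨f, hf, hf1, heq⟩ := h1 (x * e)
      rw [heq]
      have h5 := h2 x (e * f) (mul_mem he hf) (by rw [D.nrd_mul, he1, hf1, one_mul])
      have h6 : (m • (x * e)) * f = (m • x) * (e * f) := by
        rw [← smul_mul_assoc, mul_assoc]
      rwa [h6]

variable {O : Subalgebra R H} {N : Submodule R H} {Ψ : H → W}

/-- two elements with a small second one have a common left divisor of norm zero -/
theorem EucN.common [WellFoundedLT W] (h : D.EucN O N Ψ) {w : W} (hmin : ∀ y ∈ N, D.nrd y ≠ 0 → w ≤ Ψ y) :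
    ∀ v : W, ∀ y ∈ N, y ≠ 0 → Ψ y = v → v < w → ∀ x ∈ N, D.dag (x * D.dag y) = x * D.dag y →
      ∃ g : H, D.nrd g = 0 ∧ (∃ p, x = g * p) ∧ ∃ p, y = g * p := by
  intro v
  induction v using WellFoundedLT.induction with
  | ind v ih =>
    intro y hy hy0 hyv hvw x hx hxy
    have hny : D.nrd y = 0 := by
      by_contra hne
      exact absurd (hmin y hy hne) (not_le.2 (by rw [hyv]; exact hvw))
    obtain ⟨q, hq, hq1, hlt⟩ := h.euc x hx y hy hy0 hxy
    obtain ⟨r, hr⟩ : ∃ r, r = x - y * q := ⟨_, rfl⟩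
    rw [← hr] at hlt
    have hxr : x = y * q + r := by rw [hr]; abel
    by_cases hr0 : r = 0
    · exact ⟨y, hny, ⟨q, by rw [hxr, hr0, add_zero]⟩, 1, by rw [mul_one]⟩
    · have hrN : r ∈ N := by rw [hr]; exact sub_mem hx (h.right y hy q hq)
      have hsym : D.dag (r * D.dag y) = r * D.dag y := by
        rw [hr, sub_mul, D.dag_sub, hxy]
        congr 1
        rw [D.dag_mul, D.dag_mul, D.dag_dag, hq1, mul_assoc]
      have hsym2 : y * D.dag r = r * D.dag y := by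
        rw [← hsym, D.dag_mul, D.dag_dag]
      obtain ⟨g, hg, ⟨p, hp⟩, p', hp'⟩ := ih (Ψ r) (by rw [← hyv]; exact hlt) r hrN hr0 rfl
        (lt_trans (by rw [← hyv]; exact hlt) hvw) y hy (by rw [hsym2, hsym])
      exact ⟨g, hg, ⟨p * q + p', by rw [hxr, mul_add, ← mul_assoc, ← hp, ← hp']⟩, p, hp⟩

/-- the minimal invertible element divides -/
theorem EucN.dvd [WellFoundedLT W] (h : D.EucN O N Ψ) {b : H} (hb : b ∈ N) (hnb : D.nrd b ≠ 0)
    (hmin : ∀ y ∈ N, D.nrd y ≠ 0 → Ψ b ≤ Ψ y) {a : H} (ha : a ∈ N) (hab : D.dag (a * D.dag b) = a * D.dag b) :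
    ∃ q ∈ O, D.dag q = q ∧ a = b * q := by
  have hb0 : b ≠ 0 := by rintro rfl; exact hnb D.nrd_zero
  obtain ⟨q, hq, hq1, hlt⟩ := h.euc a ha b hb hb0 hab
  refine ⟨q, hq, hq1, ?_⟩
  by_contra hne
  have hr0 : a - b * q ≠ 0 := fun h0 => hne (sub_eq_zero.1 h0)
  have hrN : a - b * q ∈ N := sub_mem ha (h.right b hb q hq)
  have hsym : D.dag ((a - b * q) * D.dag b) = (a - b * q) * D.dag b := by
    rw [sub_mul, D.dag_sub, hab]
    congr 1
    rw [D.dag_mul, D.dag_mul, D.dag_dag, hq1, mul_assoc]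
  have hsym2 : b * D.dag (a - b * q) = (a - b * q) * D.dag b := by
    rw [← hsym, D.dag_mul, D.dag_dag]
  obtain ⟨g, hg, ⟨p, hp⟩, -⟩ := h.common D hmin _ _ hrN hr0 rfl hlt b hb (by rw [hsym2, hsym])
  apply hnb
  rw [hp, D.nrd_mul, hg, zero_mul]

/-- a minimal invertible element `b`: `u b u⁻¹ = b η`, and `b O` contains the elements `a` of `N` with `a b̄ ∈ H⁺` -/
theorem EucN.exists_min [WellFoundedLT W] (h : D.EucN O N Ψ) (h1 : (1 : H) ∈ N) :
    ∃ b ∈ N, D.nrd b ≠ 0 ∧ (∃ e ∈ O, D.dag e = e ∧ D.nrd e = 1 ∧ D.tau b = b * e ∧ e * D.dag b = D.bar b) ∧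
      ∀ a ∈ N, D.dag (a * D.bar b) = a * D.bar b → ∃ y ∈ O, a = b * y := by
  obtain ⟨b, ⟨hb, hnb⟩, hmin⟩ := WellFounded.has_min (InvImage.wf Ψ (wellFounded_lt (α := W)))
    {x : H | x ∈ N ∧ D.nrd x ≠ 0} ⟨1, h1, by rw [D.nrd_one]; exact one_ne_zero⟩
  have hmin' : ∀ y ∈ N, D.nrd y ≠ 0 → Ψ b ≤ Ψ y := fun y hy hny => not_lt.1 (hmin y ⟨hy, hny⟩)
  obtain ⟨e, he, he1, heq⟩ := h.dvd D hb hnb hmin' (h.tau b hb) (by rw [D.tau_mul_dag, D.dag_algebraMap])
  have hne : D.nrd e = 1 := by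
    have h2 : D.nrd b = D.nrd b * D.nrd e := by
      rw [← D.nrd_mul, ← heq, D.nrd_tau]
    exact mul_left_cancel₀ hnb (by rw [mul_one]; exact h2.symm)
  have hed : e * D.dag b = D.bar b := by
    have h3 : b * (e * D.dag b) = b * D.bar b := by
      rw [← mul_assoc, ← heq, D.tau_mul_dag, D.mul_bar]
    have h4 : D.nrd b • (e * D.dag b) = D.nrd b • D.bar b := by
      rw [Algebra.smul_def, Algebra.smul_def, ← D.bar_mul_self, mul_assoc, h3, mul_assoc]
    exact smul_right_injective H hnb h4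
  refine ⟨b, hb, hnb, ⟨e, he, he1, hne, heq, hed⟩, fun a ha hab => ?_⟩
  have hΨ : Ψ (b * e) = Ψ b := h.inv b hb e he hne
  obtain ⟨q, hq, hq1, hq2⟩ := h.dvd D (b := b * e) (h.right b hb e he) (by rw [D.nrd_mul, hne, mul_one]; exact hnb)
    (by rw [hΨ]; exact hmin') ha (by
      have hde : D.dag (b * e) = D.bar b := by rw [D.dag_mul, he1, hed]
      rw [hde]; exact hab)
  exact ⟨e * q, mul_mem he hq, by rw [hq2, mul_assoc]⟩

end OrthInv

end Pool.Agent.KS6_18.TwE
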