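import Pool.Agent.KS6_18.TwE.Pr

set_option autoImplicit false
set_option linter.unusedVariables false

/-! # All consequences of the existence of a `‡`-Euclidean `‡`-order -/

namespace Pool.Agent.KS6_18.TwE

universe w

section

variable {K H : Type*} [Field K] [Ring H] [Algebra K H] (R : Type*) [CommRing R] [Algebra R H] (D : OrthInv K H)

/-- Some `‡`-order of `H` over `R` is `‡`-Euclidean. -/
def HasEuclideanOrder : Prop :=
  ∃ O : Subalgebra R H, D.IsDagOrder O ∧ D.IsDagEuclidean.{_, _, _, w} O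

/-- Every maximal `‡`-order is `‡`-Euclidean. -/
def MaximalOrdersEuclidean : Prop :=
  ∀ O : Subalgebra R H, D.IsMaximalDagOrder O → D.IsDagEuclidean.{_, _, _, w} O

/-- Every `‡`-order is contained in a `‡`-Euclidean `‡`-order. -/
def OrdersInEuclideanOrders : Prop :=
  ∀ O : Subalgebra R H, D.IsDagOrder O →
    ∃ O' : Subalgebra R H, D.IsDagOrder O' ∧ D.IsDagEuclidean.{_, _, _, w} O' ∧ O ≤ O'

/-- Any two maximal `‡`-orders are conjugate: `O' = b O b⁻¹` for some invertible `b ∈ H`. -/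
def MaximalOrdersConjugate : Prop :=
  ∀ O O' : Subalgebra R H, D.IsMaximalDagOrder O → D.IsMaximalDagOrder O' →
    ∃ b : Hˣ, ∀ x : H, x ∈ O ↔ (b : H) * x * ↑b⁻¹ ∈ O'

end

theorem all {R K H : Type*} [CommRing R] [IsDomain R] [IsIntegrallyClosed R] [Field K] [Algebra R K]
    [IsFractionRing R K] [Ring H] [Nontrivial H] [Algebra K H] [Algebra R H] [IsScalarTower R K H]
    (D : OrthInv K H) (h : HasEuclideanOrder.{w} R D) :
    IsPrufer R ∧ MaximalOrdersEuclidean.{w} R D ∧ OrdersInEuclideanOrders.{w} R D ∧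
      MaximalOrdersConjugate R D := by
  obtain ⟨O, hO, hE⟩ := h
  have hP : IsPrufer R := by
    obtain ⟨W, i1, i2, Φ, hΦ⟩ := D.eucH_of hO.dag hE
    exact D.isPrufer hO hΦ
  have h1 : ∀ O' : Subalgebra R H, D.IsMaximalDagOrder O' → D.IsDagEuclidean.{_, _, _, w} O' := by
    intro O' hO'
    obtain ⟨S, -, -, -, hS, hSE, hle, -⟩ := D.main hP hO hE hO'.1
    rwa [hO'.2 S hS hle] at hSE
  refine ⟨hP, h1, fun O' hO' => ?_, fun O' O'' hO' hO'' => ?_⟩
  · obtain ⟨S, -, -, -, hS, hSE, hle, -⟩ := D.main hP hO hE hO'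
    exact ⟨S, hS, hSE, hle⟩
  · obtain ⟨S, b, c, e, hS, -, hle, hbc, hcb, hbS, he, hbe, hee, hee', hconj⟩ := D.main hP hO'.1 (h1 O' hO') hO''.1
    rw [hO''.2 S hS hle] at hbS
    obtain ⟨T, hT, hTO⟩ := exists_conj D hO''.1 hbc hcb he hbe hee' hconj hbS
    have hTeq := hO'.2 T hT (fun x hx => (hTO x).2 (hbS x hx))
    refine ⟨⟨b, c, hbc, hcb⟩, fun x => ?_⟩
    rw [← hTeq, hTO]
    rfl

end Pool.Agent.KS6_18.TwE
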