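import Pool.Agent.KS6_18.TwE.Defs

set_option autoImplicit false
set_option linter.unusedSectionVars false

/-! # Orders are stable under the standard involution; quotients of lattices -/

namespace Pool.Agent.KS6_18.TwE

open Polynomial
open scoped nonZeroDivisors

variable {R K H : Type*} [CommRing R] [Field K] [Ring H] [Algebra R K] [Algebra K H] [Algebra R H] [IsScalarTower R K H]

/-- an integral element has an integral reduced trace -/
lemma tr_int [IsDomain R] [IsIntegrallyClosed R] [IsFractionRing R K] [Nontrivial H] (S : StdInv K H) {x : H}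
    (hx : IsIntegral R x) (hxK : x ∉ Set.range (algebraMap K H)) : ∃ r : R, algebraMap R K r = S.tr x := by
  obtain ⟨p, hp, hpx⟩ := hx
  have hpx' : aeval x (p.map (algebraMap R K)) = 0 := by
    rw [aeval_map_algebraMap]; exact hpx
  obtain ⟨m, hm⟩ : ∃ m : K[X], m = X ^ 2 - C (S.tr x) * X + C (S.nrd x) := ⟨_, rfl⟩
  have hm1 : m.Monic := by
    rw [hm]; monicity!
  have hmd : m.natDegree = 2 := by
    rw [hm]; compute_degree!
  have hmx : aeval x m = 0 := by
    rw [hm, map_add, map_sub, map_mul, map_pow, aeval_X, aeval_C, aeval_C, ← S.add_bar, ← S.bar_mul_self]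
    noncomm_ring
  have hr : aeval x (p.map (algebraMap R K) %ₘ m) = 0 := by
    have h1 := modByMonic_add_div (p.map (algebraMap R K)) m
    have h2 := congrArg (aeval x) h1
    rw [map_add, map_mul, hmx, zero_mul, add_zero, hpx'] at h2
    exact h2
  have hr0 : p.map (algebraMap R K) %ₘ m = 0 := by
    have h1 : (p.map (algebraMap R K) %ₘ m).natDegree ≤ 1 := by
      have := natDegree_modByMonic_lt (p.map (algebraMap R K)) hm1 (by
        intro h; rw [h] at hmd; simp at hmd)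
      omega
    obtain ⟨a, b, hab⟩ := exists_eq_X_add_C_of_natDegree_le_one h1
    rw [hab, map_add, map_mul, aeval_C, aeval_C, aeval_X] at hr
    by_cases ha : a = 0
    · rw [ha, map_zero, zero_mul, zero_add] at hr
      have hb : b = 0 := (algebraMap K H).injective (by rw [hr, map_zero])
      rw [hab, ha, hb]; simp
    · exfalso
      apply hxK
      refine ⟨-(a⁻¹ * b), ?_⟩
      have h2 : algebraMap K H a⁻¹ * (algebraMap K H a * x + algebraMap K H b) = 0 := by rw [hr, mul_zero]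
      rw [mul_add, ← mul_assoc, ← map_mul, inv_mul_cancel₀ ha, map_one, one_mul, ← map_mul] at h2
      rw [map_neg, eq_comm, ← add_eq_zero_iff_eq_neg, h2]
  have hdvd : m ∣ p.map (algebraMap R K) := (modByMonic_eq_zero_iff_dvd hm1).1 hr0
  obtain ⟨g, hg⟩ := IsIntegrallyClosed.eq_map_mul_C_of_dvd K hp hdvd
  rw [hm1.leadingCoeff, C_1, mul_one] at hg
  refine ⟨-g.coeff 1, ?_⟩
  have h3 : (g.map (algebraMap R K)).coeff 1 = -S.tr x := by
    rw [hg, hm]; simp [coeff_C]
  rw [coeff_map] at h3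
  rw [map_neg, h3, neg_neg]

/-- orders are stable under the standard involution -/
lemma bar_mem [IsDomain R] [IsIntegrallyClosed R] [IsFractionRing R K] [Nontrivial H] (S : StdInv K H)
    {O : Subalgebra R H} (hfg : (Subalgebra.toSubmodule O).FG) {x : H} (hx : x ∈ O) : S.bar x ∈ O := by
  by_cases hxK : x ∈ Set.range (algebraMap K H)
  · obtain ⟨k, rfl⟩ := hxK
    rw [S.bar_algebraMap]; exact hx
  · obtain ⟨r, hr⟩ := tr_int S (IsIntegral.of_mem_of_fg O hfg x hx) hxK
    rw [S.bar_eq, ← hr, ← IsScalarTower.algebraMap_apply]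
    exact sub_mem (O.algebraMap_mem r) hx

/-- elements of `H` have multiples in an order -/
lemma exists_smul_mem [IsDomain R] [IsFractionRing R K] {O : Subalgebra R H} (hs : Submodule.span K (O : Set H) = ⊤) (x : H) :
    ∃ m : R, m ≠ 0 ∧ m • x ∈ O := by
  have hx : x ∈ Submodule.span K (O : Set H) := by rw [hs]; trivial
  induction hx using Submodule.span_induction with
  | mem x hx => exact ⟨1, one_ne_zero, by rw [one_smul]; exact hx⟩
  | zero => exact ⟨1, one_ne_zero, by rw [smul_zero]; exact zero_mem O⟩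
  | add x y _ _ hx hy =>
    obtain ⟨m, hm, hm'⟩ := hx
    obtain ⟨n, hn, hn'⟩ := hy
    refine ⟨m * n, mul_ne_zero hm hn, ?_⟩
    rw [smul_add]
    refine add_mem ?_ ?_
    · rw [mul_comm, mul_smul]; exact O.smul_mem hm' n
    · rw [mul_smul]; exact O.smul_mem hn' m
  | smul k x _ hx =>
    obtain ⟨m, hm, hm'⟩ := hx
    obtain ⟨a, b, hb, hab⟩ := IsFractionRing.div_surjective (A := R) k
    have hb0 : b ≠ 0 := nonZeroDivisors.ne_zero hb
    refine ⟨m * b, mul_ne_zero hm hb0, ?_⟩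
    have h1 : (m * b) • k • x = a • m • x := by
      have hbK : algebraMap R K b ≠ 0 := by
        rw [Ne, FaithfulSMul.algebraMap_eq_zero_iff]; exact hb0
      rw [← IsScalarTower.algebraMap_smul K (m * b) (k • x), ← IsScalarTower.algebraMap_smul K a (m • x),
        ← IsScalarTower.algebraMap_smul K m x, smul_smul, smul_smul, ← hab, map_mul]
      congr 1
      field_simp
    rw [h1]
    exact O.smul_mem hm' a

/-- a finitely generated module has a multiple in an order -/
lemma exists_smul_le [IsDomain R] [IsFractionRing R K] {O : Subalgebra R H} (hs : Submodule.span K (O : Set H) = ⊤)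
    {N : Submodule R H} (hN : N.FG) : ∃ m : R, m ≠ 0 ∧ ∀ x ∈ N, m • x ∈ O := by
  refine Submodule.fg_induction (motive := fun N _ => ∃ m : R, m ≠ 0 ∧ ∀ x ∈ N, m • x ∈ O) ?_ ?_ N hN
  · intro x
    obtain ⟨m, hm, hm'⟩ := exists_smul_mem hs x
    refine ⟨m, hm, fun y hy => ?_⟩
    obtain ⟨r, rfl⟩ := Submodule.mem_span_singleton.1 hy
    rw [smul_comm]
    exact O.smul_mem hm' r
  · intro N1 N2 _ _ h1 h2
    obtain ⟨m, hm, hm'⟩ := h1
    obtain ⟨n, hn, hn'⟩ := h2
    refine ⟨m * n, mul_ne_zero hm hn, fun x hx => ?_⟩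
    obtain ⟨y, hy, z, hz, rfl⟩ := Submodule.mem_sup.1 hx
    rw [smul_add]
    refine add_mem ?_ ?_
    · rw [mul_comm, mul_smul]; exact O.smul_mem (hm' y hy) n
    · rw [mul_smul]; exact O.smul_mem (hn' z hz) m

/-- Every finitely generated ideal of `R` is locally principal: for every maximal ideal `𝔪` there
are `a ∈ I` and `s ∉ 𝔪` with `s I ⊆ R a`. (For a domain `R` this means that `R` is a Prüfer
domain.) -/
def IsPrufer (R : Type*) [CommRing R] : Prop :=
  ∀ I : Ideal R, I.FG → ∀ 𝔪 : Ideal R, 𝔪.IsMaximal →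
    ∃ a ∈ I, ∃ s : R, s ∉ 𝔪 ∧ ∀ x ∈ I, ∃ r : R, s * x = r * a

/-- Dedekind domains are Prüfer. -/
lemma isPrufer_of_dedekind (R : Type*) [CommRing R] [IsDedekindDomain R] : IsPrufer R := by
  intro I hI 𝔪 hm
  by_cases hI0 : I = ⊥
  · exact ⟨0, zero_mem I, 1, fun h => hm.ne_top ((Ideal.eq_top_iff_one 𝔪).2 h),
      fun x hx => ⟨0, by rw [hI0, Ideal.mem_bot] at hx; rw [hx]; ring⟩⟩
  by_cases hm0 : 𝔪 = ⊥
  · -- `R` is a field
    obtain ⟨a, ha, ha0⟩ := Submodule.exists_mem_ne_zero_of_ne_bot hI0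
    refine ⟨a, ha, a, fun h => ha0 (by rwa [hm0, Ideal.mem_bot] at h), fun x _ => ⟨x, mul_comm a x⟩⟩
  have hle : 𝔪 * I ≤ I := Ideal.mul_le_right
  have hne : 𝔪 * I ≠ 0 := by
    rw [Ne, mul_eq_zero, not_or]
    exact ⟨hm0, hI0⟩
  obtain ⟨g, hg⟩ := IsDedekindDomain.exists_sup_span_eq hle hne
  have hgI : g ∈ I := by
    rw [← hg]
    exact Ideal.mem_sup_right (Ideal.mem_span_singleton_self g)
  -- Nakayama in `R / (g)`
  have hN : (Submodule.map (Ideal.span {g}).mkQ I).FG := Submodule.FG.map _ hI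
  have hin : Submodule.map (Ideal.span {g}).mkQ I ≤ 𝔪 • Submodule.map (Ideal.span {g}).mkQ I := by
    rintro _ ⟨x, hx, rfl⟩
    have hx' : x ∈ 𝔪 * I ⊔ Ideal.span {g} := by rw [hg]; exact hx
    obtain ⟨y, hy, z, hz, rfl⟩ := Submodule.mem_sup.1 hx'
    have h0 : (Ideal.span {g}).mkQ z = 0 := by
      rw [Submodule.mkQ_apply, Submodule.Quotient.mk_eq_zero]; exact hz
    rw [map_add, h0, add_zero, ← Submodule.map_smul'']
    exact Submodule.mem_map_of_mem hy
  obtain ⟨s, hs, hsI⟩ := Submodule.exists_sub_one_mem_and_smul_eq_zero_of_fg_of_le_smul 𝔪 _ hN hin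
  refine ⟨g, hgI, s, fun h => hm.ne_top ((Ideal.eq_top_iff_one 𝔪).2 ?_), fun x hx => ?_⟩
  · have := sub_mem h hs
    rwa [sub_sub_cancel] at this
  · have h1 := hsI _ (Submodule.mem_map_of_mem hx)
    rw [← map_smul, Submodule.mkQ_apply, Submodule.Quotient.mk_eq_zero, smul_eq_mul] at h1
    obtain ⟨r, hr⟩ := Ideal.mem_span_singleton'.1 h1
    exact ⟨r, hr.symm⟩

/-- finitely generated submodules of `K` are locally principal -/
lemma loc_principal [IsDomain R] [IsFractionRing R K] (hR : IsPrufer R) {A : Submodule R K} (hA : A.FG)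
    (𝔪 : Ideal R) (hm : 𝔪.IsMaximal) :
    ∃ g ∈ A, ∃ s : R, s ∉ 𝔪 ∧ ∀ x ∈ A, ∃ r : R, s • x = r • g := by
  obtain ⟨d, hd, hdA⟩ : ∃ d : R, d ≠ 0 ∧ ∀ x ∈ A, ∃ r : R, algebraMap R K r = d • x := by
    obtain ⟨S, rfl⟩ := hA
    obtain ⟨b, hb⟩ := IsLocalization.exist_integer_multiples_of_finset R⁰ S
    refine ⟨b, nonZeroDivisors.ne_zero b.2, fun x hx => ?_⟩
    induction hx using Submodule.span_induction with
    | mem x hx => obtain ⟨r, hr⟩ := hb x hx; exact ⟨r, hr⟩
    | zero => exact ⟨0, by rw [map_zero, smul_zero]⟩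
    | add x y _ _ hx hy =>
      obtain ⟨r, hr⟩ := hx
      obtain ⟨t, ht⟩ := hy
      exact ⟨r + t, by rw [map_add, hr, ht, smul_add]⟩
    | smul a x _ hx =>
      obtain ⟨r, hr⟩ := hx
      exact ⟨a * r, by rw [map_mul, hr, smul_comm, Algebra.smul_def a]⟩
  have hdK : algebraMap R K d ≠ 0 := by
    rw [Ne, FaithfulSMul.algebraMap_eq_zero_iff]; exact hd
  -- the ideal `d A`
  obtain ⟨I, hI⟩ : ∃ I : Ideal R, I = Submodule.comap (Algebra.linearMap R K)
      (Submodule.map (LinearMap.lsmul R K d) A) := ⟨_, rfl⟩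
  have hmemI : ∀ r : R, r ∈ I ↔ ∃ x ∈ A, d • x = algebraMap R K r := by
    intro r
    rw [hI, Submodule.mem_comap, Submodule.mem_map]
    rfl
  have hIfg : I.FG := by
    have h1 : Submodule.map (Algebra.linearMap R K) I = Submodule.map (LinearMap.lsmul R K d) A := by
      rw [hI]
      apply Submodule.map_comap_eq_of_le
      rintro _ ⟨x, hx, rfl⟩
      obtain ⟨r, hr⟩ := hdA x hx
      exact ⟨r, hr⟩
    have h2 : (Submodule.map (Algebra.linearMap R K) I).FG := by rw [h1]; exact hA.map _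
    exact Submodule.fg_of_fg_map_injective (Algebra.linearMap R K) (IsFractionRing.injective R K) h2
  obtain ⟨a, haI, s, hs, hsI⟩ := hR I hIfg 𝔪 hm
  obtain ⟨g, hg, hga⟩ := (hmemI a).1 haI
  refine ⟨g, hg, s, hs, fun x hx => ?_⟩
  obtain ⟨t, ht⟩ := hdA x hx
  obtain ⟨r, hr⟩ := hsI t ((hmemI t).2 ⟨x, hx, ht.symm⟩)
  refine ⟨r, ?_⟩
  have h3 : d • (s • x) = d • (r • g) := by
    rw [smul_comm d s, smul_comm d r, hga, ← ht, Algebra.smul_def, Algebra.smul_def, ← map_mul, ← map_mul, hr]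
  rw [Algebra.smul_def, Algebra.smul_def d] at h3
  exact mul_left_cancel₀ hdK h3

end Pool.Agent.KS6_18.TwE
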