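import Pool.Agent.KS6_18.TwE.Main

set_option autoImplicit false
set_option linter.unusedSectionVars false

/-! # The base ring of a `‡`-Euclidean `‡`-order is a Prüfer domain -/

namespace Pool.Agent.KS6_18.TwE

/-- two-generated ideals suffice -/
lemma isPrufer_of_pair {R : Type*} [CommRing R]
    (h : ∀ a b : R, ∀ 𝔪 : Ideal R, 𝔪.IsMaximal →
      (∃ s : R, s ∉ 𝔪 ∧ ∃ r : R, s * b = r * a) ∨ (∃ s : R, s ∉ 𝔪 ∧ ∃ r : R, s * a = r * b)) :
    IsPrufer R := by
  intro I hI 𝔪 hm
  refine Submodule.fg_induction (motive := fun I _ => ∃ a ∈ I, ∃ s : R, s ∉ 𝔪 ∧ ∀ x ∈ I, ∃ r : R, s * x = r * a)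
    ?_ ?_ I hI
  · intro x
    refine ⟨x, Submodule.mem_span_singleton_self x, 1, fun h1 => hm.ne_top ((Ideal.eq_top_iff_one 𝔪).2 h1),
      fun y hy => ?_⟩
    obtain ⟨r, rfl⟩ := Submodule.mem_span_singleton.1 hy
    exact ⟨r, by rw [one_mul, smul_eq_mul]⟩
  · rintro I1 I2 _ _ ⟨a, ha, s, hs, h1⟩ ⟨b, hb, t, ht, h2⟩
    rcases h a b 𝔪 hm with ⟨u, hu, c, hc⟩ | ⟨u, hu, c, hc⟩
    · refine ⟨a, Submodule.mem_sup_left ha, u * (s * t), fun hmem => ?_, fun x hx => ?_⟩
      · rcases hm.isPrime.mem_or_mem hmem with h' | h'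
        · exact hu h'
        · rcases hm.isPrime.mem_or_mem h' with h'' | h''
          · exact hs h''
          · exact ht h''
      · obtain ⟨y, hy, z, hz, rfl⟩ := Submodule.mem_sup.1 hx
        obtain ⟨p, hp⟩ := h1 y hy
        obtain ⟨q, hq⟩ := h2 z hz
        refine ⟨u * t * p + s * q * c, ?_⟩
        linear_combination (u * t) * hp + (u * s) * hq + (s * q) * hc
    · refine ⟨b, Submodule.mem_sup_right hb, u * (s * t), fun hmem => ?_, fun x hx => ?_⟩
      · rcases hm.isPrime.mem_or_mem hmem with h' | h'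
        · exact hu h'
        · rcases hm.isPrime.mem_or_mem h' with h'' | h''
          · exact hs h''
          · exact ht h''
      · obtain ⟨y, hy, z, hz, rfl⟩ := Submodule.mem_sup.1 hx
        obtain ⟨p, hp⟩ := h1 y hy
        obtain ⟨q, hq⟩ := h2 z hz
        refine ⟨t * p * c + u * s * q, ?_⟩
        linear_combination (u * t) * hp + (u * s) * hq + (t * p) * hc

variable {R K H : Type*} [CommRing R] [Field K] [Ring H] [Algebra R K] [Algebra K H] [Algebra R H] [IsScalarTower R K H]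
variable [Nontrivial H]

/-- scalars in an order are in `R` -/
lemma scalar_mem [IsDomain R] [IsIntegrallyClosed R] [IsFractionRing R K] {O : Subalgebra R H}
    (hfg : (Subalgebra.toSubmodule O).FG) {k : K} (hk : algebraMap K H k ∈ O) : ∃ r : R, algebraMap R K r = k := by
  have h1 : IsIntegral R (algebraMap K H k) := IsIntegral.of_mem_of_fg O hfg _ hk
  have h2 : IsIntegral R k := (isIntegral_algebraMap_iff (algebraMap K H).injective).1 h1
  exact IsIntegrallyClosed.isIntegral_iff.1 h2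

namespace OrthInv

variable (D : OrthInv K H)

/-- the Euclidean algorithm: a common left divisor which is a combination -/
lemma gcd {W : Type*} [LinearOrder W] [WellFoundedLT W] {O : Subalgebra R H} {Φ : H → W} (h : D.EucH O Φ)
    (hdag : ∀ x ∈ O, D.dag x ∈ O) :
    ∀ v : W, ∀ y ∈ O, y ≠ 0 → Φ y = v → ∀ x ∈ O, D.dag (x * D.dag y) = x * D.dag y →
      ∃ g : H, (∃ p ∈ O, x = g * p) ∧ (∃ p ∈ O, y = g * p) ∧ ∃ α ∈ O, ∃ β ∈ O, g = x * α + y * β := by
  intro v
  induction v using WellFoundedLT.induction with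
  | ind v ih =>
    intro y hy hy0 hyv x hx hxy
    obtain ⟨q, hq, hq1, hlt⟩ := h x hx y hy hy0 hxy
    obtain ⟨r, hr⟩ : ∃ r, r = x - y * q := ⟨_, rfl⟩
    rw [← hr] at hlt
    have hxr : x = y * q + r := by rw [hr]; abel
    by_cases hr0 : r = 0
    · exact ⟨y, ⟨q, hq, by rw [hxr, hr0, add_zero]⟩, ⟨1, one_mem O, by rw [mul_one]⟩,
        0, zero_mem O, 1, one_mem O, by rw [mul_zero, mul_one, zero_add]⟩
    · have hrO : r ∈ O := by rw [hr]; exact sub_mem hx (mul_mem hy hq)
      have hsym : D.dag (r * D.dag y) = r * D.dag y := by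
        rw [hr, sub_mul, D.dag_sub, hxy]
        congr 1
        rw [D.dag_mul, D.dag_mul, D.dag_dag, hq1, mul_assoc]
      have hsym2 : y * D.dag r = r * D.dag y := by
        rw [← hsym, D.dag_mul, D.dag_dag]
      obtain ⟨g, ⟨p, hp, hgp⟩, ⟨p', hp', hgp'⟩, α, hα, β, hβ, hg⟩ :=
        ih (Φ r) (by rw [← hyv]; exact hlt) r hrO hr0 rfl y hy (by rw [hsym2, hsym])
      refine ⟨g, ⟨p * q + p', add_mem (mul_mem hp hq) hp', by rw [hxr, mul_add, ← mul_assoc, ← hgp, ← hgp']⟩,
        ⟨p, hp, hgp⟩, β, hβ, α - q * β, sub_mem hα (mul_mem hq hβ), ?_⟩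
      rw [hg, hr]
      noncomm_ring

/-- **The base ring is Prüfer.** -/
theorem isPrufer [IsDomain R] [IsIntegrallyClosed R] [IsFractionRing R K] {O : Subalgebra R H}
    (hO : D.IsDagOrder O) {W : Type*} [LinearOrder W] [WellFoundedLT W] {Φ : H → W} (h : D.EucH O Φ) :
    IsPrufer R := by
  have hbar : ∀ x ∈ O, D.bar x ∈ O := fun x hx => bar_mem D.toStdInv hO.fg hx
  have hinj : Function.Injective (algebraMap R K) := IsFractionRing.injective R K
  apply isPrufer_of_pair
  intro a b 𝔪 hm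
  have h1m : (1 : R) ∉ 𝔪 := fun h1 => hm.ne_top ((Ideal.eq_top_iff_one 𝔪).2 h1)
  by_cases hb0 : b = 0
  · exact Or.inl ⟨1, h1m, 0, by rw [hb0]; ring⟩
  -- the Euclidean algorithm for `a`, `b`
  obtain ⟨A, hA⟩ : ∃ A : H, A = algebraMap R H a := ⟨_, rfl⟩
  obtain ⟨B, hB⟩ : ∃ B : H, B = algebraMap R H b := ⟨_, rfl⟩
  have hAK : A = algebraMap K H (algebraMap R K a) := by rw [hA, IsScalarTower.algebraMap_apply R K H]
  have hBK : B = algebraMap K H (algebraMap R K b) := by rw [hB, IsScalarTower.algebraMap_apply R K H]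
  have hbK : algebraMap R K b ≠ 0 := by
    rw [Ne, FaithfulSMul.algebraMap_eq_zero_iff]; exact hb0
  have hB0 : B ≠ 0 := by
    rw [hBK, Ne, FaithfulSMul.algebraMap_eq_zero_iff]; exact hbK
  obtain ⟨g, ⟨p, hp, hgp⟩, ⟨p', hp', hgp'⟩, α, hα, β, hβ, hg⟩ := D.gcd h hO.dag (Φ B) B
    (by rw [hB]; exact O.algebraMap_mem b) hB0 rfl A (by rw [hA]; exact O.algebraMap_mem a)
    (by rw [hAK, hBK, D.dag_algebraMap, ← map_mul, D.dag_algebraMap])
  -- `g` is invertible
  have hng : D.nrd g ≠ 0 := by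
    intro h0
    have h1 : D.nrd B = 0 := by rw [hgp', D.nrd_mul, h0, zero_mul]
    have h2 := D.mul_bar B
    rw [h1, map_zero, hBK, D.bar_algebraMap, ← map_mul] at h2
    have h3 := (FaithfulSMul.algebraMap_eq_zero_iff K H).1 h2
    exact (mul_self_eq_zero.1 h3 |> hbK)
  obtain ⟨c, hc⟩ : ∃ c : H, c = (D.nrd g)⁻¹ • D.bar g := ⟨_, rfl⟩
  have hcg : c * g = 1 := by
    rw [hc, smul_mul_assoc, D.bar_mul_self, Algebra.smul_def, ← map_mul, inv_mul_cancel₀ hng, map_one]
  -- `z = g⁻¹ α`, `z' = g⁻¹ β`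
  obtain ⟨z, hz⟩ : ∃ z, z = c * α := ⟨_, rfl⟩
  obtain ⟨z', hz'⟩ : ∃ z', z' = c * β := ⟨_, rfl⟩
  have hcA : c * A = p := by rw [hgp, ← mul_assoc, hcg, one_mul]
  have hcB : c * B = p' := by rw [hgp', ← mul_assoc, hcg, one_mul]
  have hAc : ∀ x : H, A * x = x * A := fun x => by rw [hAK, Algebra.commutes]
  have hBc : ∀ x : H, B * x = x * B := fun x => by rw [hBK, Algebra.commutes]
  have m1 : z * A ∈ O := by
    have : z * A = c * A * α := by rw [hz, mul_assoc, ← hAc α, mul_assoc]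
    rw [this, hcA]; exact mul_mem hp hα
  have m2 : z * B ∈ O := by
    have : z * B = c * B * α := by rw [hz, mul_assoc, ← hBc α, mul_assoc]
    rw [this, hcB]; exact mul_mem hp' hα
  have m3 : z' * A ∈ O := by
    have : z' * A = c * A * β := by rw [hz', mul_assoc, ← hAc β, mul_assoc]
    rw [this, hcA]; exact mul_mem hp hβ
  have m4 : z' * B ∈ O := by
    have : z' * B = c * B * β := by rw [hz', mul_assoc, ← hBc β, mul_assoc]
    rw [this, hcB]; exact mul_mem hp' hβ
  have hone : z * A + z' * B = 1 := by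
    rw [hz, hz', mul_assoc, mul_assoc, ← hAc, ← hBc, ← mul_add, ← hg, hcg]
  -- norms and traces
  obtain ⟨n, hn⟩ : ∃ n : K, n = D.nrd z := ⟨_, rfl⟩
  obtain ⟨n', hn'⟩ : ∃ n : K, n = D.nrd z' := ⟨_, rfl⟩
  obtain ⟨t, ht⟩ : ∃ t : K, t = D.tr (z * D.bar z') := ⟨_, rfl⟩
  have hzz : z * D.bar z = algebraMap K H n := by rw [hn, D.mul_bar]
  have hzz' : z' * D.bar z' = algebraMap K H n' := by rw [hn', D.mul_bar]
  have hzt : z * D.bar z' + z' * D.bar z = algebraMap K H t := by
    rw [ht, ← D.add_bar, D.bar_mul, D.bar_bar]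
  obtain ⟨x, hx⟩ : ∃ x, x = algebraMap R K a := ⟨_, rfl⟩
  obtain ⟨y, hy⟩ : ∃ y, y = algebraMap R K b := ⟨_, rfl⟩
  rw [← hx] at hAK
  rw [← hy] at hBK hbK
  -- products of elements `k z`, `l w` of `O` with scalars
  have key : ∀ (k l : K) (v w : H), v * algebraMap K H k ∈ O → w * algebraMap K H l ∈ O →
      (k * l) • (v * D.bar w) ∈ O := by
    intro k l v w hv hw
    have h1 := mul_mem hv (hbar _ hw)
    have h2 : v * algebraMap K H k * D.bar (w * algebraMap K H l) = (k * l) • (v * D.bar w) := by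
      rw [D.bar_mul, D.bar_algebraMap, Algebra.smul_def, map_mul, ← Algebra.commutes k v]
      calc algebraMap K H k * v * (algebraMap K H l * D.bar w) =
          algebraMap K H k * (v * algebraMap K H l) * D.bar w := by noncomm_ring
        _ = _ := by rw [← Algebra.commutes l v]; noncomm_ring
    rwa [h2] at h1
  rw [hAK] at m1 m3
  rw [hBK] at m2 m4
  have kn : ∀ (k l : K), z * algebraMap K H k ∈ O → z * algebraMap K H l ∈ O →
      ∃ r : R, algebraMap R K r = k * l * n := by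
    intro k l h1 h2
    apply scalar_mem hO.fg (O := O)
    have := key k l z z h1 h2
    rwa [hzz, Algebra.smul_def, ← map_mul] at this
  have kn' : ∀ (k l : K), z' * algebraMap K H k ∈ O → z' * algebraMap K H l ∈ O →
      ∃ r : R, algebraMap R K r = k * l * n' := by
    intro k l h1 h2
    apply scalar_mem hO.fg (O := O)
    have := key k l z' z' h1 h2
    rwa [hzz', Algebra.smul_def, ← map_mul] at this
  have kt : ∀ (k l : K), z * algebraMap K H k ∈ O → z' * algebraMap K H l ∈ O →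
      z' * algebraMap K H k ∈ O → z * algebraMap K H l ∈ O →
      ∃ r : R, algebraMap R K r = k * l * t := by
    intro k l h1 h2 h3 h4
    apply scalar_mem hO.fg (O := O)
    have := add_mem (key k l z z' h1 h2) (key l k z' z (by exact h2) (by exact h1))
    rwa [mul_comm l k, ← smul_add, hzt, Algebra.smul_def, ← map_mul] at this
  obtain ⟨c1, hc1⟩ := kn x x m1 m1
  obtain ⟨c2, hc2⟩ := kn x y m1 m2
  obtain ⟨c3, hc3⟩ := kt x y m1 m4 m3 m2
  obtain ⟨c4, hc4⟩ := kt y y m2 m4 m4 m2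
  obtain ⟨c5, hc5⟩ := kn' x y m3 m4
  obtain ⟨c6, hc6⟩ := kn' y y m4 m4
  have hsum : x * x * n + x * y * t + y * y * n' = 1 := by
    apply (algebraMap K H).injective
    rw [map_one]
    have h1 : (z * A + z' * B) * D.bar (z * A + z' * B) = 1 := by
      rw [hone, D.bar_one, mul_one]
    rw [map_add, D.bar_mul, D.bar_mul, hAK, hBK, D.bar_algebraMap, D.bar_algebraMap] at h1
    rw [← h1, ← Algebra.commutes x z, ← Algebra.commutes y z']
    simp only [map_add, map_mul]
    rw [← hzz, ← hzt, ← hzz']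
    have e1 := Algebra.commutes x z
    have e2 := Algebra.commutes y z
    have e3 := Algebra.commutes x z'
    have e4 := Algebra.commutes y z'
    have e5 := Algebra.commutes x (algebraMap K H y)
    obtain ⟨X, hX⟩ : ∃ X, X = algebraMap K H x := ⟨_, rfl⟩
    obtain ⟨Y, hY⟩ : ∃ Y, Y = algebraMap K H y := ⟨_, rfl⟩
    rw [← hX] at e1 e3 e5 ⊢
    rw [← hY] at e2 e4 e5 ⊢
    have f1 : X * z * (X * D.bar z) = X * X * (z * D.bar z) := by
      calc X * z * (X * D.bar z) = X * (z * X) * D.bar z := by noncomm_ring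
        _ = _ := by rw [← e1]; noncomm_ring
    have f2 : X * z * (Y * D.bar z') = X * Y * (z * D.bar z') := by
      calc X * z * (Y * D.bar z') = X * (z * Y) * D.bar z' := by noncomm_ring
        _ = _ := by rw [← e2]; noncomm_ring
    have f3 : Y * z' * (X * D.bar z) = X * Y * (z' * D.bar z) := by
      calc Y * z' * (X * D.bar z) = Y * (z' * X) * D.bar z := by noncomm_ring
        _ = Y * X * (z' * D.bar z) := by rw [← e3]; noncomm_ring
        _ = _ := by rw [e5]
    have f4 : Y * z' * (Y * D.bar z') = Y * Y * (z' * D.bar z') := by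
      calc Y * z' * (Y * D.bar z') = Y * (z' * Y) * D.bar z' := by noncomm_ring
        _ = _ := by rw [← e4]; noncomm_ring
    rw [add_mul, mul_add (X * z), mul_add (Y * z'), mul_add (X * Y), f1, f2, f3, f4]
    abel
  -- `s = x (x n + y t)` or `s' = y (y n')` is outside `𝔪`
  have hR : (c1 + c3) + c6 = 1 := by
    apply hinj
    rw [map_add, map_add, map_one, hc1, hc3, hc6, ← hsum]
  by_cases hcase : c1 + c3 ∈ 𝔪
  · right
    refine ⟨c6, fun h6 => h1m ?_, c5, ?_⟩
    · rw [← hR]; exact add_mem hcase h6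
    · apply hinj
      rw [map_mul, map_mul, hc6, hc5, ← hx, ← hy]
      ring
  · left
    refine ⟨c1 + c3, hcase, c2 + c4, ?_⟩
    apply hinj
    rw [map_mul, map_mul, map_add, map_add, hc1, hc2, hc3, hc4, ← hx, ← hy]
    ring

end OrthInv

end Pool.Agent.KS6_18.TwE
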